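import Pool.Agent.H98.Cubic.Targets

/-!
Module Ord: the conditions on the stationary point are order connected.
-/

set_option autoImplicit false

open Finset

namespace Pool.Agent.H14.Cubic

open Pool.Agent.H98.Cubic

/-- the stationary point -/
lemma ystar_eq (p q : ℕ) (g r : ℤ) (k : ℕ) (hq : 1 ≤ q) (hk : 1 ≤ k) (hg : g ≠ 0)
    (hA : (2 * p * k + g : ℝ) ≠ 0) :
    (r : ℝ) / (2 * (q : ℝ) ^ 2 * ep p q g k) = (r / g) * ((k : ℝ) ^ 2 / (2 * (2 * p * k + g))) := by
  have hq0 : (q : ℝ) ≠ 0 := by exact_mod_cast (by omega : q ≠ 0)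
  have hk0 : (k : ℝ) ≠ 0 := by exact_mod_cast (by omega : k ≠ 0)
  have hg0 : (g : ℝ) ≠ 0 := by exact_mod_cast hg
  have h1 : ep p q g k = g * (2 * p * k + g) / ((q : ℝ) ^ 2 * (k : ℝ) ^ 2) := by
    unfold ep
    field_simp
    ring
  rw [h1]
  field_simp

/-- basic size facts -/
lemma size (p q K₀ k : ℕ) (g : ℤ) (hq : 1 ≤ q) (hqp : q ≤ p) (hK : 1 ≤ K₀)
    (hg2 : 2 * |g| ≤ K₀) (hk : K₀ ≤ k) :
    (1 : ℝ) ≤ k ∧ (1 : ℝ) ≤ p ∧ 2 * |(g : ℝ)| ≤ k ∧ 0 < (2 * p * k + g : ℝ) ∧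
      0 < (p * k + g : ℝ) ∧ (3 / 2 : ℝ) * (p * k) ≤ 2 * p * k + g ∧
      (2 * p * k + g : ℝ) ≤ (5 / 2 : ℝ) * (p * k) := by
  have h1 : (1 : ℝ) ≤ k := by exact_mod_cast (by omega : 1 ≤ k)
  have h2 : (1 : ℝ) ≤ p := by exact_mod_cast (by omega : 1 ≤ p)
  have h3 : 2 * |(g : ℝ)| ≤ k := by
    have h4 : 2 * |g| ≤ (k : ℤ) := hg2.trans (by exact_mod_cast hk)
    exact_mod_cast h4
  have h4 := neg_abs_le (g : ℝ)
  have h4' := le_abs_self (g : ℝ)
  have h5 : 1 * (k : ℝ) ≤ p * k := mul_le_mul_of_nonneg_right h2 (by linarith)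
  refine ⟨h1, h2, h3, ?_, ?_, ?_, ?_⟩ <;> linarith

theorem ord : TOrd := by
  intro N c₁ p q K₀ Y g r hN hq hqp hK hg hg2
  have hq0 : (0 : ℝ) < q := by exact_mod_cast (by omega : 0 < q)
  have hg0 : (g : ℝ) ≠ 0 := by exact_mod_cast hg
  -- positivity of `r / g` on the set
  have hpos : ∀ k : ℕ, K₀ ≤ k → yLo N Y p q g k ≤ (r : ℝ) / (2 * (q : ℝ) ^ 2 * ep p q g k) →
      0 < (r / g : ℝ) := by
    intro k hk h1
    obtain ⟨s1, s2, s3, s4, s5, s6, s7⟩ := size p q K₀ k g hq hqp hK hg2 hk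
    rw [ystar_eq p q g r k hq (by omega) hg s4.ne'] at h1
    have h2 : (k : ℝ) ≤ yLo N Y p q g k := (le_max_right _ _).trans (le_max_left _ _)
    have h3 : 0 < (r / g : ℝ) * ((k : ℝ) ^ 2 / (2 * (2 * p * k + g))) := by linarith
    have h4 : 0 < ((k : ℝ) ^ 2 / (2 * (2 * p * k + g))) := by positivity
    exact (pos_iff_pos_of_mul_pos h3).2 h4
  constructor
  · constructor
    rintro k₁ ⟨hk1, a1, b1⟩ k₂ ⟨hk2, a2, b2⟩ k ⟨hkl, hkr⟩
    have hk : K₀ ≤ k := hk1.trans hkl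
    have ha := hpos k₁ hk1 a1
    obtain ⟨s1, s2, s3, s4, s5, s6, s7⟩ := size p q K₀ k g hq hqp hK hg2 hk
    obtain ⟨t1, -, t3, t4, t5, t6, t7⟩ := size p q K₀ k₁ g hq hqp hK hg2 hk1
    obtain ⟨u1, -, u3, u4, u5, u6, u7⟩ := size p q K₀ k₂ g hq hqp hK hg2 hk2
    rw [ystar_eq p q g r k₁ hq (by omega) hg t4.ne'] at a1 b1
    rw [ystar_eq p q g r k₂ hq (by omega) hg u4.ne'] at a2 b2
    refine ⟨hk, ?_⟩
    rw [ystar_eq p q g r k hq (by omega) hg s4.ne']
    have hx : (k₁ : ℝ) ≤ k := by exact_mod_cast hkl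
    have hy : (k : ℝ) ≤ k₂ := by exact_mod_cast hkr
    generalize hK1 : (k₁ : ℝ) = x at *
    generalize hK2 : (k₂ : ℝ) = z at *
    generalize hKK : (k : ℝ) = y at *
    generalize hP : (p : ℝ) = P at *
    generalize hGG : (g : ℝ) = w at *
    generalize hAA : ((r : ℝ) / w) = a at *
    have hw1 := neg_abs_le w
    -- monotonicity of the stationary point
    have m1 : ∀ s t : ℝ, 1 ≤ s → s ≤ t → 2 * |w| ≤ s → 0 < 2 * P * s + w → 0 < 2 * P * t + w →
        s ^ 2 / (2 * (2 * P * s + w)) ≤ t ^ 2 / (2 * (2 * P * t + w)) := by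
      intro s t h1 h2 h3 h4 h5
      rw [div_le_div_iff₀ (by positivity) (by positivity)]
      have hst : 0 ≤ s * t := mul_nonneg (by linarith) (by linarith)
      have hss : s * s ≤ s * t := mul_le_mul_of_nonneg_left h2 (by linarith)
      have h6 : 0 ≤ 2 * P * s * t + w * (s + t) := by
        have h7 : -(s / 2) ≤ w := by linarith
        have h8 : -(s / 2) * (s + t) ≤ w * (s + t) := mul_le_mul_of_nonneg_right h7 (by linarith)
        have h9 : 1 * (s * t) ≤ P * (s * t) := mul_le_mul_of_nonneg_right s2 hst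
        linarith
      have h10 := mul_nonneg (sub_nonneg.2 h2) h6
      linarith
    have m2 : ∀ s t : ℝ, 1 ≤ s → s ≤ t → 2 * |w| ≤ s → 0 < 2 * P * s + w → 0 < 2 * P * t + w →
        s * (P * s + w) / (2 * (2 * P * s + w)) ≤ t * (P * t + w) / (2 * (2 * P * t + w)) := by
      intro s t h1 h2 h3 h4 h5
      rw [div_le_div_iff₀ (by positivity) (by positivity)]
      have hst : 0 ≤ s * t := mul_nonneg (by linarith) (by linarith)
      have hss : s * s ≤ s * t := mul_le_mul_of_nonneg_left h2 (by linarith)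
      have h6 : 0 ≤ 2 * P ^ 2 * s * t + P * w * (s + t) + w ^ 2 := by
        have h7 : -(s / 2) ≤ w := by linarith
        have h8 : -(s / 2) * (s + t) ≤ w * (s + t) := mul_le_mul_of_nonneg_right h7 (by linarith)
        have h8' : P * (-(s / 2) * (s + t)) ≤ P * (w * (s + t)) :=
          mul_le_mul_of_nonneg_left h8 (by linarith)
        have h9 : P * (1 * (s * t)) ≤ P * (P * (s * t)) :=
          mul_le_mul_of_nonneg_left (mul_le_mul_of_nonneg_right s2 hst) (by linarith)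
        have h10 : P * (s * s) ≤ P * (s * t) := mul_le_mul_of_nonneg_left hss (by linarith)
        have h11 : 0 ≤ P * (s * t) := mul_nonneg (by linarith) hst
        linarith [sq_nonneg w]
      have h10 := mul_nonneg (sub_nonneg.2 h2) h6
      linarith
    have n1 := m1 x y t1 hx t3 t4 s4
    have n2 := m1 y z s1 hy s3 s4 u4
    have n3 := m2 x y t1 hx t3 t4 s4
    have n4 := m2 y z s1 hy s3 s4 u4
    -- the conditions
    unfold yLo at a1 a2 ⊢
    unfold yHi at b1 b2 ⊢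
    rw [hK1, hGG, hP] at a1 b1
    rw [hK2, hGG, hP] at a2 b2
    rw [hKK, hGG, hP]
    have key : ∀ s : ℝ, 0 < s → 0 < P * s + w → 0 < 2 * P * s + w → ∀ M : ℝ,
        (M * (q * s) / (P * s + w) ≤ a * (s ^ 2 / (2 * (2 * P * s + w))) ↔
          M * q ≤ a * (s * (P * s + w) / (2 * (2 * P * s + w)))) := by
      intro s h1 h2 h3 M
      rw [div_le_iff₀ h2]
      have e1 : a * (s ^ 2 / (2 * (2 * P * s + w))) * (P * s + w) =
          s * (a * (s * (P * s + w) / (2 * (2 * P * s + w)))) := by ring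
      have e2 : M * (q * s) = s * (M * q) := by ring
      rw [e1, e2]
      exact mul_le_mul_iff_of_pos_left h1
    have key' : ∀ s : ℝ, 0 < s → 0 < P * s + w → 0 < 2 * P * s + w → ∀ M : ℝ,
        (a * (s ^ 2 / (2 * (2 * P * s + w))) ≤ M * (q * s) / (P * s + w) ↔
          a * (s * (P * s + w) / (2 * (2 * P * s + w))) ≤ M * q) := by
      intro s h1 h2 h3 M
      rw [le_div_iff₀ h2]
      have e1 : a * (s ^ 2 / (2 * (2 * P * s + w))) * (P * s + w) =
          s * (a * (s * (P * s + w) / (2 * (2 * P * s + w)))) := by ring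
      have e2 : M * (q * s) = s * (M * q) := by ring
      rw [e1, e2]
      exact mul_le_mul_iff_of_pos_left h1
    have keyk : ∀ s : ℝ, 0 < s → 0 < 2 * P * s + w →
        (s ≤ a * (s ^ 2 / (2 * (2 * P * s + w))) ↔ 2 * (2 * P * s + w) ≤ a * s) := by
      intro s h1 h2
      have e1 : a * (s ^ 2 / (2 * (2 * P * s + w))) = (a * s) * s / (2 * (2 * P * s + w)) := by ring
      rw [e1, le_div_iff₀ (by positivity), mul_comm s]
      exact mul_le_mul_iff_of_pos_right h1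
    simp only [max_le_iff, le_min_iff] at a1 a2 b1 b2 ⊢
    obtain ⟨⟨a11, a12⟩, a13⟩ := a1
    obtain ⟨⟨a21, a22⟩, a23⟩ := a2
    obtain ⟨⟨b11, b12⟩, b13⟩ := b1
    obtain ⟨⟨b21, b22⟩, b23⟩ := b2
    have x0 : 0 < x := by linarith
    have y0 : 0 < y := by linarith
    have z0 : 0 < z := by linarith
    rw [key x x0 t5 t4] at a13
    rw [key' z z0 u5 u4] at b23
    rw [keyk x x0 t4] at a12
    rw [keyk z z0 u4] at a22
    rw [key y y0 s5 s4, key' y y0 s5 s4, keyk y y0 s4]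
    have am1 := mul_le_mul_of_nonneg_left n1 ha.le
    have am2 := mul_le_mul_of_nonneg_left n2 ha.le
    have am3 := mul_le_mul_of_nonneg_left n3 ha.le
    have am4 := mul_le_mul_of_nonneg_left n4 ha.le
    refine ⟨⟨⟨by linarith, ?_⟩, by linarith⟩, ⟨⟨by linarith, by linarith⟩, by linarith⟩⟩
    -- the linear condition
    rcases le_total (4 * P) a with h | h
    · have h1 : (a - 4 * P) * x ≤ (a - 4 * P) * y :=
        mul_le_mul_of_nonneg_left hx (sub_nonneg.2 h)
      linarith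
    · have h1 : (4 * P - a) * y ≤ (4 * P - a) * z :=
        mul_le_mul_of_nonneg_left hy (sub_nonneg.2 h)
      linarith
  · intro k hk hk2 h1 h2
    have ha := hpos k hk h1
    obtain ⟨s1, s2, s3, s4, s5, s6, s7⟩ := size p q K₀ k g hq hqp hK hg2 hk
    rw [ystar_eq p q g r k hq (by omega) hg s4.ne'] at h1 h2
    have hrg : 0 < (r : ℝ) * g := by
      have : (r : ℝ) * g = (r / g) * (g * g) := by field_simp
      rw [this]
      have : 0 < (g : ℝ) * g := mul_self_pos.2 hg0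
      exact mul_pos ha this
    have hrg' : 0 < r * g := by exact_mod_cast hrg
    have habs : |(r : ℝ)| = (r / g : ℝ) * |(g : ℝ)| := by
      have h3 : |(r : ℝ)| = |(r / g : ℝ)| * |(g : ℝ)| := by
        rw [← abs_mul]
        congr 1
        field_simp
      rw [h3, abs_of_pos ha]
    have hk0 : (0 : ℝ) < k := by linarith
    have hgp : 0 < |(g : ℝ)| := abs_pos.2 hg0
    have h3 : (k : ℝ) ≤ yLo N Y p q g k := (le_max_right _ _).trans (le_max_left _ _)
    have h4 : yHi N c₁ Y p q g k ≤ 2 * (Y : ℝ) - 1 := (min_le_left _ _).trans (min_le_left _ _)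
    have h5 : (k : ℝ) ≤ (r / g) * ((k : ℝ) ^ 2 / (2 * (2 * p * k + g))) := h3.trans h1
    have h6 : (r / g) * ((k : ℝ) ^ 2 / (2 * (2 * p * k + g))) ≤ 2 * (Y : ℝ) := by linarith
    refine ⟨hrg', ?_, ?_⟩
    · rw [habs]
      have e1 : (r / g : ℝ) * ((k : ℝ) ^ 2 / (2 * (2 * p * k + g))) =
          (r / g * k) * k / (2 * (2 * p * k + g)) := by ring
      rw [e1, le_div_iff₀ (by positivity), mul_comm (k : ℝ), mul_le_mul_iff_of_pos_right hk0] at h5
      have h7 : (3 * p : ℝ) * k ≤ (r / g) * k := by linarith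
      have h8 : (3 * p : ℝ) ≤ r / g := le_of_mul_le_mul_right h7 hk0
      exact mul_le_mul_of_nonneg_right h8 hgp.le
    · rw [habs]
      have e1 : (r / g : ℝ) * ((k : ℝ) ^ 2 / (2 * (2 * p * k + g))) =
          (r / g * (k : ℝ) ^ 2) / (2 * (2 * p * k + g)) := by ring
      rw [e1, div_le_iff₀ (by positivity)] at h6
      have hK0 : (K₀ : ℝ) ≤ k := by exact_mod_cast hk
      have hY : (0 : ℝ) ≤ Y := Nat.cast_nonneg _
      have h7 : (r / g : ℝ) * k * k ≤ 10 * p * Y * k := by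
        have h7' : 2 * (Y : ℝ) * (2 * (2 * p * k + g)) ≤ 2 * Y * (2 * ((5 / 2 : ℝ) * (p * k))) := by
          apply mul_le_mul_of_nonneg_left _ (by linarith)
          linarith
        linarith
      have h8 : (r / g : ℝ) * k ≤ 10 * p * Y := le_of_mul_le_mul_right h7 hk0
      have h9 : (r / g : ℝ) * K₀ ≤ 10 * p * Y :=
        (mul_le_mul_of_nonneg_left hK0 ha.le).trans h8
      have h10 := mul_le_mul_of_nonneg_right h9 hgp.le
      linarith

end Pool.Agent.H14.Cubic
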