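import Pool.Agent.H98.Cubic.Targets

/-!
Module QP: everything for a fixed fraction.
-/

set_option autoImplicit false

open Finset

namespace Pool.Agent.H14.Cubic

open Pool.Agent.H98.Cubic

/-- sizes of `ep` -/
lemma ep_bounds (p q K₀ k : ℕ) (g : ℤ) (hq : 1 ≤ q) (hqp : q ≤ p) (hK : 1 ≤ K₀)
    (hg2 : 2 * |g| ≤ K₀) (hk : K₀ ≤ k) (hk2 : k < 2 * K₀) :
    (3 / 4 : ℝ) * p * |(g : ℝ)| / ((q : ℝ) ^ 2 * K₀) ≤ |ep p q g k| ∧
      |ep p q g k| ≤ 5 / 4 * p / (q : ℝ) ^ 2 := by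
  have hq0 : (0 : ℝ) < q := by exact_mod_cast (by omega : 0 < q)
  have hk0 : (0 : ℝ) < k := by exact_mod_cast (by omega : 0 < k)
  have hK0 : (0 : ℝ) < K₀ := by exact_mod_cast (by omega : 0 < K₀)
  have hp0 : (0 : ℝ) < p := by exact_mod_cast (by omega : 0 < p)
  have hp1 : (1 : ℝ) ≤ p := by exact_mod_cast (by omega : 1 ≤ p)
  have hkK : (k : ℝ) ≤ 2 * K₀ := by exact_mod_cast hk2.le
  have h3 : 2 * |(g : ℝ)| ≤ k := by
    have h4 : 2 * |g| ≤ (k : ℤ) := hg2.trans (by exact_mod_cast hk)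
    exact_mod_cast h4
  have h4 := neg_abs_le (g : ℝ)
  have h4' := le_abs_self (g : ℝ)
  have h5 : 1 * (k : ℝ) ≤ p * k := mul_le_mul_of_nonneg_right hp1 hk0.le
  have s6 : (3 / 2 : ℝ) * (p * k) ≤ 2 * p * k + g := by linarith
  have s7 : (2 * p * k + g : ℝ) ≤ (5 / 2 : ℝ) * (p * k) := by linarith
  have s4 : 0 < (2 * p * k + g : ℝ) := lt_of_lt_of_le (by positivity) s6
  have h1 : ep p q g k = g * (2 * p * k + g) / ((q : ℝ) ^ 2 * (k : ℝ) ^ 2) := by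
    unfold ep
    field_simp
    ring
  have h2 : |ep p q g k| = |(g : ℝ)| * (2 * p * k + g) / ((q : ℝ) ^ 2 * (k : ℝ) ^ 2) := by
    rw [h1, abs_div, abs_mul, abs_of_pos s4, abs_of_pos (by positivity : (0 : ℝ) <
      (q : ℝ) ^ 2 * (k : ℝ) ^ 2)]
  have hg0 := abs_nonneg (g : ℝ)
  constructor
  · rw [h2, div_le_div_iff₀ (by positivity) (by positivity)]
    have e1 : |(g : ℝ)| * ((3 / 2 : ℝ) * (p * k)) ≤ |(g : ℝ)| * (2 * p * k + g) :=
      mul_le_mul_of_nonneg_left s6 hg0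
    have e2 : (3 / 4 : ℝ) * p * |(g : ℝ)| * ((q : ℝ) ^ 2 * (k : ℝ) ^ 2) =
        (3 / 4 * p * |(g : ℝ)| * (q : ℝ) ^ 2 * k) * k := by ring
    have e3 : (3 / 4 * p * |(g : ℝ)| * (q : ℝ) ^ 2 * k) * k ≤
        (3 / 4 * p * |(g : ℝ)| * (q : ℝ) ^ 2 * k) * (2 * K₀) :=
      mul_le_mul_of_nonneg_left hkK (by positivity)
    have e4 : (3 / 4 * p * |(g : ℝ)| * (q : ℝ) ^ 2 * k) * (2 * K₀) =
        (|(g : ℝ)| * ((3 / 2 : ℝ) * (p * k))) * ((q : ℝ) ^ 2 * K₀) := by ring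
    rw [e2]
    refine e3.trans ?_
    rw [e4]
    exact mul_le_mul_of_nonneg_right e1 (by positivity)
  · rw [h2, div_le_div_iff₀ (by positivity) (by positivity)]
    have e1 : |(g : ℝ)| * (2 * p * k + g) ≤ |(g : ℝ)| * ((5 / 2 : ℝ) * (p * k)) :=
      mul_le_mul_of_nonneg_left s7 hg0
    have e2 : |(g : ℝ)| * ((5 / 2 : ℝ) * (p * k)) ≤ (k / 2) * ((5 / 2 : ℝ) * (p * k)) :=
      mul_le_mul_of_nonneg_right (by linarith) (by positivity)
    have e3 : (k / 2) * ((5 / 2 : ℝ) * (p * k)) * (q : ℝ) ^ 2 =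
        5 / 4 * p * ((q : ℝ) ^ 2 * (k : ℝ) ^ 2) := by ring
    rw [← e3]
    exact mul_le_mul_of_nonneg_right (e1.trans e2) (by positivity)

/-- the number of `k` -/
lemma card_k (p q K₀ : ℕ) (g : ℤ) (S : Finset ℕ) (hq : 1 ≤ q) (hqK : q ≤ K₀)
    (hcop : Nat.Coprime p q) (hS : ∀ k ∈ S, k < 2 * K₀ ∧ (q : ℤ) ∣ (p : ℤ) * k + g) :
    (S.card : ℝ) ≤ 3 * (K₀ / q) := by
  have h1 : S.card ≤ (Finset.range (2 * K₀ / q + 1)).card := by
    refine Finset.card_le_card_of_injOn (fun k => k / q) ?_ ?_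
    · intro k hk
      have := (hS k hk).1
      rw [Finset.mem_coe, Finset.mem_range]
      exact Nat.lt_succ_of_le (Nat.div_le_div_right this.le)
    · intro k hk k' hk' hkk
      have h2 := (hS k hk).2
      have h3 := (hS k' hk').2
      have h4 : (q : ℤ) ∣ (p : ℤ) * (k - k') := by
        have := dvd_sub h2 h3
        have e : (p : ℤ) * k + g - ((p : ℤ) * k' + g) = (p : ℤ) * (k - k') := by ring
        rwa [e] at this
      have h5 : IsCoprime (q : ℤ) (p : ℤ) := by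
        rw [Nat.isCoprime_iff_coprime]
        exact hcop.symm
      have h6 : (q : ℤ) ∣ (k : ℤ) - k' := h5.dvd_of_dvd_mul_left h4
      have h7 : k' ≡ k [MOD q] := (Nat.modEq_iff_dvd.2 h6)
      have h8 : k / q = k' / q := hkk
      rw [← Nat.div_add_mod k q, ← Nat.div_add_mod k' q, h8]
      rw [show k % q = k' % q from h7.symm]
  rw [Finset.card_range] at h1
  have hq0 : (0 : ℝ) < q := by exact_mod_cast (by omega : 0 < q)
  have h2 : ((2 * K₀ / q + 1 : ℕ) : ℝ) ≤ 2 * K₀ / q + 1 := by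
    push_cast
    have : ((2 * K₀ / q : ℕ) : ℝ) ≤ ((2 * K₀ : ℕ) : ℝ) / q := Nat.cast_div_le
    push_cast at this
    linarith
  have h3 : (1 : ℝ) ≤ K₀ / q := by
    rw [le_div_iff₀ hq0, one_mul]
    exact_mod_cast hqK
  calc (S.card : ℝ) ≤ ((2 * K₀ / q + 1 : ℕ) : ℝ) := by exact_mod_cast h1
    _ ≤ 2 * K₀ / q + 1 := h2
    _ ≤ 3 * (K₀ / q) := by
      have : (2 : ℝ) * K₀ / q = 2 * (K₀ / q) := by ring
      linarith

/-- sum of `|g|^{-1/2}` -/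
lemma sum_inv_sqrt (G : ℕ) :
    ∑ g ∈ (Icc (-(G : ℤ)) G).erase 0, 1 / Real.sqrt |(g : ℝ)| ≤ 4 * Real.sqrt G := by
  induction G with
  | zero => simp
  | succ n ih =>
    have h1 : (Icc (-((n + 1 : ℕ) : ℤ)) ((n + 1 : ℕ) : ℤ)).erase 0 =
        insert ((n + 1 : ℕ) : ℤ) (insert (-((n + 1 : ℕ) : ℤ)) ((Icc (-(n : ℤ)) n).erase 0)) := by
      ext x
      simp only [mem_erase, mem_Icc, mem_insert]
      push_cast
      omega
    have h2 : (-((n + 1 : ℕ) : ℤ)) ∉ (Icc (-(n : ℤ)) n).erase 0 := by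
      simp only [mem_erase, mem_Icc]
      push_cast
      omega
    have h3 : ((n + 1 : ℕ) : ℤ) ∉ insert (-((n + 1 : ℕ) : ℤ)) ((Icc (-(n : ℤ)) n).erase 0) := by
      simp only [mem_erase, mem_Icc, mem_insert]
      push_cast
      omega
    rw [h1, Finset.sum_insert h3, Finset.sum_insert h2]
    have h4 : |(((n + 1 : ℕ) : ℤ) : ℝ)| = (n + 1 : ℝ) := by
      have h40 : (((n + 1 : ℕ) : ℤ) : ℝ) = (n + 1 : ℝ) := by push_cast; ring
      rw [h40, abs_of_nonneg (by positivity)]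
    have h5 : |((-((n + 1 : ℕ) : ℤ) : ℤ) : ℝ)| = (n + 1 : ℝ) := by
      rw [Int.cast_neg, abs_neg, h4]
    rw [h4, h5]
    have h6 : (((n + 1 : ℕ)) : ℝ) = (n + 1 : ℝ) := by push_cast; ring
    rw [h6]
    have h7 : 1 / Real.sqrt (n + 1 : ℝ) ≤ 2 * (Real.sqrt (n + 1) - Real.sqrt n) := by
      have hs1 : 0 < Real.sqrt (n + 1 : ℝ) := Real.sqrt_pos.2 (by positivity)
      have hs0 : 0 ≤ Real.sqrt (n : ℝ) := Real.sqrt_nonneg _
      have e1 : Real.sqrt (n + 1 : ℝ) ^ 2 = n + 1 := Real.sq_sqrt (by positivity)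
      have e2 : Real.sqrt (n : ℝ) ^ 2 = n := Real.sq_sqrt (by positivity)
      have hle : Real.sqrt (n : ℝ) ≤ Real.sqrt (n + 1 : ℝ) := Real.sqrt_le_sqrt (by linarith)
      rw [div_le_iff₀ hs1]
      nlinarith [sq_nonneg (Real.sqrt (n + 1 : ℝ) - Real.sqrt n)]
    linarith

lemma norm_ee (x : ℝ) : ‖ee x‖ = 1 := by
  unfold ee ei
  exact Complex.norm_exp_ofReal_mul_I _

/-- trivial bound for the inner sum -/
lemma norm_Sy_le (y₁ y₂ ξ : ℝ) (Y : ℕ) (hY : 1 ≤ Y) (h1 : (Y : ℝ) ≤ y₁) (h2 : y₂ ≤ 2 * Y - 1) :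
    ‖Sy y₁ y₂ ξ‖ ≤ Y := by
  unfold Sy
  refine (norm_sum_le _ _).trans ?_
  rw [Finset.sum_congr rfl (fun y _ => norm_ee _), Finset.sum_const, nsmul_eq_mul, mul_one]
  have h3 : Icc ⌈y₁⌉ ⌊y₂⌋ ⊆ Icc (Y : ℤ) (2 * Y - 1) := by
    apply Finset.Icc_subset_Icc
    · have : (Y : ℝ) ≤ ⌈y₁⌉ := h1.trans (Int.le_ceil _)
      exact_mod_cast this
    · have : (⌊y₂⌋ : ℝ) ≤ 2 * Y - 1 := (Int.floor_le _).trans h2
      exact_mod_cast this
  have h4 := Finset.card_le_card h3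
  rw [Int.card_Icc (Y : ℤ)] at h4
  have h5 : (2 * (Y : ℤ) - 1 + 1 - Y).toNat = Y := by omega
  rw [h5] at h4
  exact_mod_cast h4

open scoped Classical in
theorem qp (hPair : TPair) (hFix : TFix) : TQP := by
  obtain ⟨C₁, hC₁, hP⟩ := hPair
  obtain ⟨C₂, hC₂, hF⟩ := hFix
  refine ⟨C₂ + 30 * C₁ + 3, by positivity, ?_⟩
  intro N c₁ D p q K₀ Y G O hN hq hqp hcop hqK hY hG hGK hO hD
  obtain ⟨w, hw, hPw⟩ := hP p q hq hqp hcop
  have hFix := hF N c₁ D p q K₀ Y G (5 * p * Y) w O hN hq hqp hcop hqK hY hG hGK hw hO hD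
  have hK : 1 ≤ K₀ := by omega
  have hq0 : (0 : ℝ) < q := by exact_mod_cast (by omega : 0 < q)
  have hq1 : (1 : ℝ) ≤ q := by exact_mod_cast hq
  have hK0 : (0 : ℝ) < K₀ := by exact_mod_cast (by omega : 0 < K₀)
  have hp0 : (0 : ℝ) < p := by exact_mod_cast (by omega : 0 < p)
  have hp1 : (1 : ℝ) ≤ p := by exact_mod_cast (by omega : 1 ≤ p)
  have hqp' : (q : ℝ) ≤ p := by exact_mod_cast hqp
  have hY1 : (1 : ℝ) ≤ Y := by exact_mod_cast hY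
  have hG1 : (1 : ℝ) ≤ G := by exact_mod_cast hG
  have hpY1 : (1 : ℝ) ≤ p * Y := by nlinarith
  have hpYp : (p : ℝ) ≤ p * Y := by nlinarith
  have hlog0 : 0 ≤ Real.log (p * Y) := Real.log_nonneg hpY1
  -- the set of `k`
  obtain ⟨S, hS⟩ : ∃ S : ℤ → Finset ℕ, ∀ g, S g = (Ico K₀ (2 * K₀)).filter
      (fun k : ℕ => (q : ℤ) ∣ (p : ℤ) * k + g ∧ k ∈ O g) :=
    ⟨fun g => (Ico K₀ (2 * K₀)).filter (fun k : ℕ => (q : ℤ) ∣ (p : ℤ) * k + g ∧ k ∈ O g),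
      fun _ => rfl⟩
  have hSmem : ∀ g, ∀ k ∈ S g, K₀ ≤ k ∧ k < 2 * K₀ ∧ (q : ℤ) ∣ (p : ℤ) * k + g := by
    intro g k hk
    rw [hS, mem_filter, mem_Ico] at hk
    exact ⟨hk.1.1, hk.1.2, hk.2.1⟩
  have hScard : ∀ g, ((S g).card : ℝ) ≤ 3 * (K₀ / q) := fun g =>
    card_k p q K₀ g (S g) hq hqK hcop (fun k hk => ⟨(hSmem g k hk).2.1, (hSmem g k hk).2.2⟩)
  -- the main terms
  obtain ⟨M, hM⟩ : ∃ M : ℤ → ℕ → ℂ, ∀ g k, M g k =
      ∑ r ∈ (Icc (-((5 * p * Y : ℕ) : ℤ)) ((5 * p * Y : ℕ) : ℤ)).filter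
              (fun r : ℤ => yLo N Y p q g k ≤ (r : ℝ) / (2 * (q : ℝ) ^ 2 * ep p q g k) ∧
                (r : ℝ) / (2 * (q : ℝ) ^ 2 * ep p q g k) ≤ yHi N c₁ Y p q g k),
            w r * ((1 / Real.sqrt |ep p q g k| : ℝ) : ℂ) * sg g *
              ee (-((r : ℝ) ^ 2) / (8 * (q : ℝ) ^ 4 * ep p q g k)) := ⟨_, fun _ _ => rfl⟩
  obtain ⟨F, hFdef⟩ : ∃ F : ℤ → ℕ → ℂ, ∀ g k, F g k =
      Sy (yLo N Y p q g k) (yHi N c₁ Y p q g k) (((p : ℝ) * k + g) / (q * k)) :=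
    ⟨_, fun _ _ => rfl⟩
  have hgoal : ∑ g ∈ Icc (-(G : ℤ)) G,
        ∑ k ∈ (Ico K₀ (2 * K₀)).filter (fun k : ℕ => (q : ℤ) ∣ (p : ℤ) * k + g ∧ k ∈ O g),
          Sy (yLo N Y p q g k) (yHi N c₁ Y p q g k) (((p : ℝ) * k + g) / (q * k)) =
      ∑ g ∈ Icc (-(G : ℤ)) G, ∑ k ∈ S g, F g k := by
    refine Finset.sum_congr rfl fun g _ => ?_
    rw [hS]
    exact Finset.sum_congr rfl fun k _ => (hFdef g k).symm
  have hmain : ‖∑ g ∈ (Icc (-(G : ℤ)) G).erase 0, ∑ k ∈ S g, M g k‖ ≤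
      C₂ * D * (Y * Real.sqrt ((p : ℝ) * G / K₀)) *
          ((K₀ : ℝ) / q + G * (1 + (G : ℝ) ^ 3 * (Y : ℝ) ^ 2 / (p * (q : ℝ) ^ 2 * (K₀ : ℝ) ^ 3)) *
            (1 + Real.log G)) := by
    have h1 : ∑ g ∈ (Icc (-(G : ℤ)) G).erase 0, ∑ k ∈ S g, M g k =
        ∑ g ∈ (Icc (-(G : ℤ)) G).erase 0,
        ∑ k ∈ (Ico K₀ (2 * K₀)).filter (fun k : ℕ => (q : ℤ) ∣ (p : ℤ) * k + g ∧ k ∈ O g),
          ∑ r ∈ (Icc (-((5 * p * Y : ℕ) : ℤ)) ((5 * p * Y : ℕ) : ℤ)).filter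
              (fun r : ℤ => yLo N Y p q g k ≤ (r : ℝ) / (2 * (q : ℝ) ^ 2 * ep p q g k) ∧
                (r : ℝ) / (2 * (q : ℝ) ^ 2 * ep p q g k) ≤ yHi N c₁ Y p q g k),
            w r * ((1 / Real.sqrt |ep p q g k| : ℝ) : ℂ) * sg g *
              ee (-((r : ℝ) ^ 2) / (8 * (q : ℝ) ^ 4 * ep p q g k)) := by
      refine Finset.sum_congr rfl fun g _ => ?_
      rw [hS]
      exact Finset.sum_congr rfl fun k _ => hM g k
    rw [h1]
    exact hFix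
  -- bounds for the errors
  have hYlo : ∀ g k, (Y : ℝ) ≤ yLo N Y p q g k := fun g k =>
    (le_max_left _ _).trans (le_max_left _ _)
  have hYhi : ∀ g k, yHi N c₁ Y p q g k ≤ 2 * (Y : ℝ) - 1 := fun g k =>
    (min_le_left _ _).trans (min_le_left _ _)
  have herr : ∀ g ∈ (Icc (-(G : ℤ)) G).erase 0, ∀ k ∈ S g,
      ‖F g k - M g k‖ ≤ C₁ * (Real.sqrt (4 / 3 * (K₀ / p)) * (1 / Real.sqrt |(g : ℝ)|) +
        q * (3 * (1 + Real.log (p * Y)))) := by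
    intro g hg k hk
    rw [mem_erase, mem_Icc] at hg
    obtain ⟨hg0, hgl, hgr⟩ := hg
    obtain ⟨hk1, hk2, hk3⟩ := hSmem g k hk
    have hgG : 2 * |g| ≤ (K₀ : ℤ) := by
      have h1 : |g| ≤ G := abs_le.2 ⟨hgl, hgr⟩
      have h2 : (2 * G : ℤ) ≤ K₀ := by exact_mod_cast hGK
      linarith
    have hgk : 2 * |g| ≤ (k : ℤ) := hgG.trans (by exact_mod_cast hk1)
    obtain ⟨hep1, hep2⟩ := ep_bounds p q K₀ k g hq hqp hK hgG hk1 hk2
    have hgpos : 0 < |(g : ℝ)| := abs_pos.2 (by exact_mod_cast hg0)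
    have hep0 : 0 < |ep p q g k| := lt_of_lt_of_le (by positivity) hep1
    have hR : 2 * (q : ℝ) ^ 2 * |ep p q g k| * (2 * Y) ≤ ((5 * p * Y : ℕ) : ℝ) := by
      push_cast
      have h1 : 2 * (q : ℝ) ^ 2 * |ep p q g k| ≤ 2 * (q : ℝ) ^ 2 * (5 / 4 * p / (q : ℝ) ^ 2) :=
        mul_le_mul_of_nonneg_left hep2 (by positivity)
      have h2 : 2 * (q : ℝ) ^ 2 * (5 / 4 * p / (q : ℝ) ^ 2) = 5 / 2 * p := by
        field_simp
        ring
      rw [h2] at h1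
      calc 2 * (q : ℝ) ^ 2 * |ep p q g k| * (2 * Y) ≤ 5 / 2 * p * (2 * Y) :=
            mul_le_mul_of_nonneg_right h1 (by positivity)
        _ = 5 * p * Y := by ring
    have hpw := hPw k g (yLo N Y p q g k) (yHi N c₁ Y p q g k) (2 * Y) (5 * p * Y) (by omega)
      hg0 hgk (by linarith [hYlo g k]) (by linarith [hYhi g k]) (by positivity) hR
    rw [hFdef, hM]
    refine hpw.trans ?_
    apply mul_le_mul_of_nonneg_left _ hC₁.le
    have e1 : 1 / (q * Real.sqrt |ep p q g k|) ≤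
        Real.sqrt (4 / 3 * (K₀ / p)) * (1 / Real.sqrt |(g : ℝ)|) := by
      have h1 : (q : ℝ) * Real.sqrt |ep p q g k| = Real.sqrt ((q : ℝ) ^ 2 * |ep p q g k|) := by
        rw [Real.sqrt_mul (by positivity), Real.sqrt_sq hq0.le]
      rw [h1, one_div, ← Real.sqrt_inv, one_div, ← Real.sqrt_inv, ← Real.sqrt_mul (by positivity)]
      apply Real.sqrt_le_sqrt
      rw [← one_div, ← one_div, mul_one_div, div_le_div_iff₀ (by positivity) (by positivity),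
        one_mul]
      have h2 : 4 / 3 * ((K₀ : ℝ) / p) * ((q : ℝ) ^ 2 * ((3 / 4 : ℝ) * p * |(g : ℝ)| /
          ((q : ℝ) ^ 2 * K₀))) = |(g : ℝ)| := by
        field_simp
      have h3 : 4 / 3 * ((K₀ : ℝ) / p) * ((q : ℝ) ^ 2 * ((3 / 4 : ℝ) * p * |(g : ℝ)| /
          ((q : ℝ) ^ 2 * K₀))) ≤ 4 / 3 * ((K₀ : ℝ) / p) * ((q : ℝ) ^ 2 * |ep p q g k|) := by
        apply mul_le_mul_of_nonneg_left _ (by positivity)
        exact mul_le_mul_of_nonneg_left hep1 (by positivity)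
      linarith
    have e2 : Real.log q ≤ Real.log (p * Y) := Real.log_le_log hq0 (hqp'.trans hpYp)
    have e3 : Real.log (1 + |ep p q g k| * (2 * Y)) ≤ 2 + Real.log (p * Y) := by
      have h1 : |ep p q g k| ≤ 5 / 4 * p := by
        refine hep2.trans ?_
        apply div_le_self (by positivity)
        nlinarith
      have h2 : 1 + |ep p q g k| * (2 * Y) ≤ Real.exp 2 * (p * Y) := by
        have h3 : |ep p q g k| * (2 * Y) ≤ 5 / 4 * p * (2 * Y) :=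
          mul_le_mul_of_nonneg_right h1 (by positivity)
        have h4 : (4 : ℝ) ≤ Real.exp 2 := by
          have := Real.add_one_le_exp (1 : ℝ)
          have h5 : Real.exp 2 = Real.exp 1 * Real.exp 1 := by
            rw [← Real.exp_add]
            norm_num
          rw [h5]
          nlinarith
        nlinarith
      have h3 : 0 < 1 + |ep p q g k| * (2 * Y) := by positivity
      calc Real.log (1 + |ep p q g k| * (2 * Y)) ≤ Real.log (Real.exp 2 * (p * Y)) :=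
            Real.log_le_log h3 h2
        _ = 2 + Real.log (p * Y) := by
          rw [Real.log_mul (Real.exp_pos 2).ne' (by positivity), Real.log_exp]
    have e4 : q * (1 + Real.log q + Real.log (1 + |ep p q g k| * (2 * Y))) ≤
        q * (3 * (1 + Real.log (p * Y))) := by
      apply mul_le_mul_of_nonneg_left _ hq0.le
      linarith
    exact add_le_add e1 e4
  have herrsum : ‖∑ g ∈ (Icc (-(G : ℤ)) G).erase 0, ∑ k ∈ S g, (F g k - M g k)‖ ≤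
      30 * C₁ * ((K₀ : ℝ) / q * Real.sqrt ((K₀ : ℝ) * G / p) +
        K₀ * G * (1 + Real.log (p * Y))) := by
    have h1 : ‖∑ g ∈ (Icc (-(G : ℤ)) G).erase 0, ∑ k ∈ S g, (F g k - M g k)‖ ≤
        ∑ g ∈ (Icc (-(G : ℤ)) G).erase 0, 3 * (K₀ / q) *
          (C₁ * (Real.sqrt (4 / 3 * (K₀ / p)) * (1 / Real.sqrt |(g : ℝ)|) +
        q * (3 * (1 + Real.log (p * Y))))) := by
      refine (norm_sum_le _ _).trans (Finset.sum_le_sum fun g hg => ?_)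
      refine (norm_sum_le _ _).trans ((Finset.sum_le_sum (herr g hg)).trans ?_)
      rw [Finset.sum_const, nsmul_eq_mul]
      exact mul_le_mul_of_nonneg_right (hScard g) (by positivity)
    refine h1.trans ?_
    rw [← Finset.mul_sum, ← Finset.mul_sum, Finset.sum_add_distrib, ← Finset.mul_sum,
      Finset.sum_const, nsmul_eq_mul]
    have h2 : (((Icc (-(G : ℤ)) G).erase 0).card : ℝ) = 2 * G := by
      rw [Finset.card_erase_of_mem (by rw [mem_Icc]; omega), Int.card_Icc]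
      have : ((G : ℤ) + 1 - -(G : ℤ)).toNat - 1 = 2 * G := by omega
      rw [this]
      push_cast
      ring
    rw [h2]
    have h3 := sum_inv_sqrt G
    have h4 : Real.sqrt (4 / 3 * (K₀ / p)) *
        ∑ g ∈ (Icc (-(G : ℤ)) G).erase 0, 1 / Real.sqrt |(g : ℝ)| ≤
        10 * Real.sqrt ((K₀ : ℝ) * G / p) := by
      have h5 : Real.sqrt (4 / 3 * (K₀ / p)) ≤ 2 * Real.sqrt (K₀ / p) := by
        rw [Real.sqrt_mul (by norm_num)]
        apply mul_le_mul_of_nonneg_right _ (Real.sqrt_nonneg _)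
        rw [Real.sqrt_le_left (by norm_num)]
        norm_num
      have h6 : Real.sqrt ((K₀ : ℝ) * G / p) = Real.sqrt (K₀ / p) * Real.sqrt G := by
        rw [← Real.sqrt_mul (by positivity)]
        congr 1
        ring
      rw [h6]
      have h7 : 0 ≤ Real.sqrt ((K₀ : ℝ) / p) * Real.sqrt G := by positivity
      calc Real.sqrt (4 / 3 * (K₀ / p)) *
          ∑ g ∈ (Icc (-(G : ℤ)) G).erase 0, 1 / Real.sqrt |(g : ℝ)| ≤
          (2 * Real.sqrt (K₀ / p)) * (4 * Real.sqrt G) := by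
            apply mul_le_mul h5 h3 _ (by positivity)
            exact Finset.sum_nonneg fun _ _ => by positivity
        _ ≤ 10 * (Real.sqrt (K₀ / p) * Real.sqrt G) := by linarith
    have h5 : (0 : ℝ) ≤ 3 * (K₀ / q) := by positivity
    have h6 : (0 : ℝ) ≤ C₁ * (3 * (K₀ / q)) := by positivity
    have h7 : 3 * ((K₀ : ℝ) / q) * (C₁ * (Real.sqrt (4 / 3 * (K₀ / p)) *
        ∑ g ∈ (Icc (-(G : ℤ)) G).erase 0, 1 / Real.sqrt |(g : ℝ)| +
        2 * G * (q * (3 * (1 + Real.log (p * Y)))))) ≤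
        3 * ((K₀ : ℝ) / q) * (C₁ * (10 * Real.sqrt ((K₀ : ℝ) * G / p) +
        2 * G * (q * (3 * (1 + Real.log (p * Y)))))) := by
      apply mul_le_mul_of_nonneg_left _ h5
      apply mul_le_mul_of_nonneg_left _ hC₁.le
      linarith
    refine h7.trans ?_
    have h8 : 3 * ((K₀ : ℝ) / q) * (C₁ * (10 * Real.sqrt ((K₀ : ℝ) * G / p) +
        2 * G * (q * (3 * (1 + Real.log (p * Y)))))) =
        30 * C₁ * ((K₀ : ℝ) / q * Real.sqrt ((K₀ : ℝ) * G / p)) +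
        18 * C₁ * (K₀ * G * (1 + Real.log (p * Y))) := by
      field_simp
      ring
    rw [h8]
    have h9 : 0 ≤ C₁ * (K₀ * G * (1 + Real.log (p * Y))) := by positivity
    linarith
  have hzero : ‖∑ k ∈ S 0, F 0 k‖ ≤ 3 * ((K₀ : ℝ) / q * Y) := by
    refine (norm_sum_le _ _).trans ?_
    have h1 : ∀ k ∈ S 0, ‖F 0 k‖ ≤ (Y : ℝ) := by
      intro k _
      rw [hFdef]
      exact norm_Sy_le _ _ _ Y hY (hYlo 0 k) (hYhi 0 k)
    refine (Finset.sum_le_sum h1).trans ?_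
    rw [Finset.sum_const, nsmul_eq_mul, ← mul_assoc]
    exact mul_le_mul_of_nonneg_right (hScard 0) (by positivity)
  rw [hgoal]
  have hsplit : ∑ g ∈ Icc (-(G : ℤ)) G, ∑ k ∈ S g, F g k =
      ∑ k ∈ S 0, F 0 k + (∑ g ∈ (Icc (-(G : ℤ)) G).erase 0, ∑ k ∈ S g, M g k +
        ∑ g ∈ (Icc (-(G : ℤ)) G).erase 0, ∑ k ∈ S g, (F g k - M g k)) := by
    rw [← Finset.add_sum_erase (Icc (-(G : ℤ)) G) (fun g => ∑ k ∈ S g, F g k)
      (a := 0) (by rw [mem_Icc]; omega), ← Finset.sum_add_distrib]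
    congr 1
    refine Finset.sum_congr rfl fun g _ => ?_
    rw [← Finset.sum_add_distrib]
    exact Finset.sum_congr rfl fun k _ => by ring
  rw [hsplit]
  refine (norm_add_le _ _).trans ?_
  have hA := norm_add_le (∑ g ∈ (Icc (-(G : ℤ)) G).erase 0, ∑ k ∈ S g, M g k)
    (∑ g ∈ (Icc (-(G : ℤ)) G).erase 0, ∑ k ∈ S g, (F g k - M g k))
  have hD0 : 0 ≤ D := by
    refine le_trans ?_ (hD 1 le_rfl ?_)
    · positivity
    · have : (0 : ℝ) ≤ 10 * p * (G : ℝ) ^ 2 * (Y : ℝ) ^ 2 / (q * (K₀ : ℝ) ^ 2) := by positivity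
      push_cast
      linarith
  have hlogG : 0 ≤ Real.log G := Real.log_nonneg hG1
  obtain ⟨X₁, hX₁⟩ : ∃ X, X = D * (Y * Real.sqrt ((p : ℝ) * G / K₀)) *
          ((K₀ : ℝ) / q + G * (1 + (G : ℝ) ^ 3 * (Y : ℝ) ^ 2 / (p * (q : ℝ) ^ 2 * (K₀ : ℝ) ^ 3)) *
            (1 + Real.log G)) := ⟨_, rfl⟩
  have hX₁0 : 0 ≤ X₁ := by rw [hX₁]; positivity
  obtain ⟨X₂, hX₂⟩ : ∃ X, X = (K₀ : ℝ) / q * Y := ⟨_, rfl⟩
  have hX₂0 : 0 ≤ X₂ := by rw [hX₂]; positivity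
  obtain ⟨X₃, hX₃⟩ : ∃ X, X = (K₀ : ℝ) / q * Real.sqrt ((K₀ : ℝ) * G / p) +
        K₀ * G * (1 + Real.log (p * Y)) := ⟨_, rfl⟩
  have hX₃0 : 0 ≤ X₃ := by rw [hX₃]; positivity
  have hmain' : ‖∑ g ∈ (Icc (-(G : ℤ)) G).erase 0, ∑ k ∈ S g, M g k‖ ≤ C₂ * X₁ := by
    rw [hX₁]
    refine hmain.trans (le_of_eq ?_)
    ring
  rw [← hX₃] at herrsum
  rw [← hX₂] at hzero
  have hfin : (C₂ + 30 * C₁ + 3) * (X₁ + X₂ + X₃) =
      (C₂ + 30 * C₁ + 3) * (D * (Y * Real.sqrt ((p : ℝ) * G / K₀)) *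
            ((K₀ : ℝ) / q + G *
              (1 + (G : ℝ) ^ 3 * (Y : ℝ) ^ 2 / (p * (q : ℝ) ^ 2 * (K₀ : ℝ) ^ 3)) *
              (1 + Real.log G)) +
          (K₀ : ℝ) / q * Y + (K₀ : ℝ) / q * Real.sqrt ((K₀ : ℝ) * G / p) +
          K₀ * G * (1 + Real.log (p * Y))) := by
    rw [hX₁, hX₂, hX₃]
    ring
  rw [← hfin]
  have p1 : 0 ≤ C₁ * X₁ := mul_nonneg hC₁.le hX₁0
  have p2 : 0 ≤ C₁ * X₂ := mul_nonneg hC₁.le hX₂0
  have p3 : 0 ≤ C₂ * X₂ := mul_nonneg hC₂.le hX₂0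
  have p4 : 0 ≤ C₂ * X₃ := mul_nonneg hC₂.le hX₃0
  have hexp : (C₂ + 30 * C₁ + 3) * (X₁ + X₂ + X₃) = C₂ * X₁ + 30 * C₁ * X₃ + 3 * X₂ +
      (30 * (C₁ * X₁) + 30 * (C₁ * X₂) + C₂ * X₂ + C₂ * X₃ + 3 * X₁ + 3 * X₃) := by ring
  rw [hexp]
  linarith

end Pool.Agent.H14.Cubic
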